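import Mathlib
import Pool.Agent.Lib.helper22.MatOr

namespace Pool.Agent.Results.MP_8f56b8_lc.Oracle

open Finset

inductive Alg (S : Type)
  | ret (H : Finset S)
  | ask (A : Finset S) (next : ℕ → Alg S)

noncomputable def rk {S : Type} (M : Matroid S) (A : Finset S) : ℕ := (M.eRk A).toNat

noncomputable def run {S : Type} (M : Matroid S) : Alg S → Finset S × ℕ
  | .ret H => (H, 0)
  | .ask A next => ((run M (next (rk M A))).1, (run M (next (rk M A))).2 + 1)

noncomputable def Phi {S : Type} [DecidableEq S] (M : Matroid S) {k : ℕ} (F : Fin k → Finset S)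
    (H : Finset S) : ℤ := 2 * ∑ i, (rk M (F i ∪ H) : ℤ) - k * rk M H

theorem use {S : Type} (M : Matroid S) (a : Alg S) : ∃ Q : Finset (Finset S),
    Q.card ≤ (run M a).2 ∧ ∀ M' : Matroid S, (∀ A ∈ Q, rk M' A = rk M A) →
      run M' a = run M a := by
  classical
  induction a with
  | ret X => exact ⟨∅, le_rfl, fun _ _ => rfl⟩
  | ask A n h =>
    obtain ⟨Q, a1, a2⟩ := h (rk M A)
    refine ⟨insert A Q, (card_insert_le _ _).trans (Nat.succ_le_succ a1), fun M' h => ?_⟩
    rw [run, run, h A (mem_insert_self _ _), a2 M' fun A hA => h A (mem_insert_of_mem hA)]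

variable {ι : Type} [Fintype ι] [DecidableEq ι]

def ind (A : Finset (ι × Fin 5)) (j : ι) (t : Fin 5) : ℕ := if (j, t) ∈ A then 1 else 0

def loc (A : Finset (ι × Fin 5)) (j : ι) : ℕ :=
  ind A j 4 + min 3 (ind A j 0 + ind A j 1 + ind A j 2 + ind A j 3)

def Fl (A : Finset (ι × Fin 5)) (j : ι) : Prop :=
  (j, 0) ∈ A ∧ (j, 1) ∈ A ∧ (j, 2) ∈ A ∧ (j, 3) ∈ A

def B (x : ι → Bool) : Finset (ι × Fin 5) :=
  univ.filter fun y => y.2 = 4 ∨ (x y.1 = true ↔ y.2 < 2)

theorem cd (A : Finset (ι × Fin 5)) :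
    A.card = ∑ j, (ind A j 0 + ind A j 1 + ind A j 2 + ind A j 3 + ind A j 4) := by
  have : A.card = ∑ y, if y ∈ A then 1 else 0 := by simp
  rw [this, Fintype.sum_prod_type]
  simp only [ind, Fin.sum_univ_five]

omit [DecidableEq ι] in
theorem cn (c : ℕ) : c * Fintype.card ι = ∑ _j : ι, c := by simp [mul_comm]

theorem cB (x : ι → Bool) : (B x).card = 3 * Fintype.card ι := by
  rw [cd, cn]
  refine sum_congr rfl fun j _ => ?_
  cases h : x j <;> simp [ind, B, h]

theorem aug {I J : Finset (ι × Fin 5)} (hI : ∀ j, ¬ Fl I j) (hJ : ∀ j, ¬ Fl J j)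
    (h : I.card < J.card) : ∃ e ∈ J, e ∉ I ∧ ∀ j, ¬ Fl (insert e I) j := by
  by_contra! c
  rw [cd, cd] at h
  refine h.not_ge (sum_le_sum fun j _ => ?_)
  have k : ∀ t, (j, t) ∈ J → (j, t) ∉ I → Fl (insert (j, t) I) j ∧ t ≠ 4 := fun t a b => by
    obtain ⟨i, hi⟩ := c _ a b
    have := hI i
    simp only [Fl, mem_insert, Prod.mk.injEq] at *
    grind
  have := k 0
  have := k 1
  have := k 2
  have := k 3
  have := k 4
  have := hJ j
  simp only [Fl, mem_insert, Prod.mk.injEq, ind] at *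
  grind

theorem mat (x : ι → Bool) (G : Prop) [Decidable G] [Nonempty ι] :
    ∃ M : Matroid (ι × Fin 5), M.E = Set.univ ∧ ∀ A, rk M A + (if G ∧ A = B x then 1 else 0) =
      min (3 * Fintype.card ι) (∑ j, loc A j) := by
  have n0 : 0 < Fintype.card ι := Fintype.card_pos
  have b0 := cB x
  have mono : ∀ {I J : Finset (ι × Fin 5)}, (∀ j, ¬ Fl J j) → I ⊆ J → ∀ j, ¬ Fl I j :=
    fun h k j ⟨a, b, c, d⟩ => h j ⟨k a, k b, k c, k d⟩
  let P (I : Finset (ι × Fin 5)) : Prop :=
    I.card ≤ 3 * Fintype.card ι ∧ (∀ j, ¬ Fl I j) ∧ ¬ (G ∧ I = B x)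
  let M := (IndepMatroid.ofFinset Set.univ P
    ⟨by simp, by simp [Fl], fun h => by rw [← h.2, card_empty] at b0; omega⟩
    (fun I J hJ h => ⟨(card_le_card h).trans hJ.1, mono hJ.2.1 h, fun k => hJ.2.2 ⟨k.1,
      (eq_of_subset_of_card_le h (by rw [k.2, b0]; exact hJ.1)).symm.trans k.2⟩⟩)
    (fun I J hI hJ h => by
      obtain ⟨e, e1, e2, e3⟩ := aug hI.2.1 hJ.2.1 h
      have := hJ.1
      by_cases c : G ∧ insert e I = B x
      · obtain ⟨g, g1, g2⟩ : ∃ g ∈ J, g ∉ B x := not_subset.1 fun k => hJ.2.2 ⟨c.1,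
          eq_of_subset_of_card_le k (by rw [← c.2, card_insert_of_notMem e2]; omega)⟩
        have g3 : ∀ y ∈ I, y ∈ B x := fun y hy => c.2 ▸ mem_insert_of_mem hy
        have g4 : g ∉ I := fun k => g2 (g3 _ k)
        refine ⟨g, g1, g4, by rw [card_insert_of_notMem g4]; omega, fun j => ?_,
          fun k => g2 (k.2 ▸ mem_insert_self _ _)⟩
        have := g3 (j, 0)
        have := g3 (j, 1)
        have := g3 (j, 2)
        have := g3 (j, 3)
        simp only [Fl, B, mem_insert, mem_filter, mem_univ, true_and] at *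
        grind
      · exact ⟨e, e1, e2, by rw [card_insert_of_notMem e2]; omega, e3, c⟩)
    fun _ _ => Set.subset_univ _).matroid
  have hM : ∀ I : Finset (ι × Fin 5), M.Indep I ↔ P I := fun I => by simp [M]
  refine ⟨M, rfl, fun A => ?_⟩
  have lB : ∑ j, loc (B x) j = 3 * Fintype.card ι := by
    rw [cn]
    refine sum_congr rfl fun j _ => ?_
    cases h : x j <;> simp [loc, ind, B, h]
  obtain ⟨I, hI⟩ := M.exists_isBasis' A
  lift I to Finset (ι × Fin 5) using Set.toFinite I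
  have r1 : rk M A = I.card := by rw [rk, hI.eRk_eq_encard]; simp
  have r2 : ∀ J ⊆ A, P J → J.card ≤ I.card := fun J a b => by
    have := ((hM J).2 b).encard_le_eRk_of_subset (X := A) (coe_subset.2 a)
    rw [hI.eRk_eq_encard] at this
    simpa using this
  have r3 : I ⊆ A := coe_subset.1 hI.subset
  obtain ⟨p1, p2, p3⟩ := (hM I).1 hI.indep
  have r4 : I.card ≤ ∑ j, loc A j := by
    rw [cd]
    refine sum_le_sum fun j _ => ?_
    have := p2 j
    have k : ∀ t, ind I j t ≤ ind A j t ∧ ind I j t ≤ 1 ∧ (ind I j t = 1 → (j, t) ∈ I) := fun t => by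
      have := @r3 (j, t)
      simp only [ind]
      grind
    have := k 0
    have := k 1
    have := k 2
    have := k 3
    have := k 4
    simp only [Fl, loc] at *
    grind
  rw [r1]
  split_ifs with c
  · obtain ⟨c, rfl⟩ := c
    have := card_lt_card (r3.ssubset_of_ne fun k => p3 ⟨c, k⟩)
    obtain ⟨J, j1, j2⟩ := (B x).exists_subset_card_eq (n := 3 * Fintype.card ι - 1) (by omega)
    have := r2 J j1 ⟨by omega, mono (fun j => by simp [Fl, B]) j1, fun k => by
      rw [k.2] at j2; omega⟩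
    omega
  · classical
    let D := A.filter fun y => ¬ (y.2 = 0 ∧ Fl A y.1)
    have d1 : D.card = ∑ j, loc A j := by
      rw [cd]
      refine sum_congr rfl fun j _ => ?_
      simp only [Fl, loc, ind, D]
      grind
    have d2 : ∀ j, ¬ Fl D j := fun j => by
      simp only [Fl, D]
      grind
    obtain ⟨J, j1, j2⟩ := D.exists_subset_card_eq
      (n := min (3 * Fintype.card ι) (∑ j, loc A j)) (by omega)
    by_cases k : G ∧ J = B x
    · obtain ⟨k, rfl⟩ := k
      obtain ⟨g, g1, g2⟩ : ∃ g ∈ D, g ∉ B x := not_subset.1 fun h => c ⟨k, Subset.antisymm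
        (fun y hy => h (mem_filter.2 ⟨hy, fun ⟨_, q⟩ => by
          have := @h (y.1, 1)
          have := @h (y.1, 2)
          simp only [Fl, D, B, mem_filter, mem_univ, true_and] at *
          grind⟩)) (j1.trans (filter_subset _ _))⟩
      obtain ⟨e, he⟩ := card_pos.1 (show 0 < (B x).card by omega)
      have s1 : insert g ((B x).erase e) ⊆ D := insert_subset g1 ((erase_subset _ _).trans j1)
      have s2 : (insert g ((B x).erase e)).card = 3 * Fintype.card ι := by
        rw [card_insert_of_notMem fun h => g2 (mem_of_mem_erase h), card_erase_of_mem he]; omega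
      have := r2 _ (s1.trans (filter_subset _ _)) ⟨s2.le, mono d2 s1,
        fun h => g2 (h.2 ▸ mem_insert_self _ _)⟩
      omega
    · have := r2 J (j1.trans (filter_subset _ _)) ⟨by omega, mono d2 j1, k⟩
      omega

def X : Finset (ι × Fin 5) := univ.filter fun y => y.2 < 2
def Y : Finset (ι × Fin 5) := univ.filter fun y => y.2 = 2 ∨ y.2 = 3
def Z : Finset (ι × Fin 5) := univ.filter fun y => y.2 = 4

theorem ineq (H : Finset (ι × Fin 5)) :
    9 * Fintype.card ι + 2 * min (3 * Fintype.card ι) (∑ j, loc H j) ≤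
      2 * min (3 * Fintype.card ι) (∑ j, loc (X ∪ H) j) +
      2 * min (3 * Fintype.card ι) (∑ j, loc (Y ∪ H) j) +
      min (3 * Fintype.card ι) (∑ j, loc (Z ∪ H) j) := by
  have k : ∀ j, 9 + 2 * loc H j ≤ 2 * loc (X ∪ H) j + 2 * loc (Y ∪ H) j + loc (Z ∪ H) j ∧
      loc H j ≤ loc (X ∪ H) j ∧ loc H j ≤ loc (Y ∪ H) j ∧ loc H j ≤ loc (Z ∪ H) j ∧
      3 + loc H j ≤ loc (X ∪ H) j + loc (Y ∪ H) j ∧
      3 + 2 * loc H j ≤ 2 * loc (X ∪ H) j + loc (Z ∪ H) j ∧
      3 + 2 * loc H j ≤ 2 * loc (Y ∪ H) j + loc (Z ∪ H) j := fun j => by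
    by_cases (j, 0) ∈ H <;> by_cases (j, 1) ∈ H <;> by_cases (j, 2) ∈ H <;>
      by_cases (j, 3) ∈ H <;> by_cases (j, 4) ∈ H <;> simp [loc, ind, X, Y, Z, *]
  have a1 := sum_le_sum fun j (_ : j ∈ univ) => (k j).1
  have a2 := sum_le_sum fun j (_ : j ∈ univ) => (k j).2.1
  have a3 := sum_le_sum fun j (_ : j ∈ univ) => (k j).2.2.1
  have a4 := sum_le_sum fun j (_ : j ∈ univ) => (k j).2.2.2.1
  have a5 := sum_le_sum fun j (_ : j ∈ univ) => (k j).2.2.2.2.1
  have a6 := sum_le_sum fun j (_ : j ∈ univ) => (k j).2.2.2.2.2.1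
  have a7 := sum_le_sum fun j (_ : j ∈ univ) => (k j).2.2.2.2.2.2
  simp only [sum_add_distrib, ← mul_sum, ← cn] at *
  omega

theorem result (A : ∀ (S : Type) [Fintype S] [DecidableEq S] (k : ℕ), (Fin k → Finset S) → Alg S)
    (p : Polynomial ℕ) : ∃ (S : Type) (_ : Fintype S) (_ : DecidableEq S) (F : Fin 6 → Finset S)
      (M : Matroid S), M.E = Set.univ ∧ (p.eval (Fintype.card S) < (run M (A S 6 F)).2 ∨
        ∃ H, Phi M F H < Phi M F (run M (A S 6 F)).1) := by
  obtain ⟨s, hs, s0⟩ := ((Pool.Agent.Lib.helper22.MatOr.poly (p + 1) 10).and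
    (Filter.eventually_gt_atTop 0)).exists
  let ι := Fin s × Bool
  have : Nonempty ι := ⟨(⟨0, s0⟩, true)⟩
  let F : Fin 6 → Finset (ι × Fin 5) := ![X, X, Y, Y, Z, ∅]
  let x (z : Fin s → Bool) (j : ι) : Bool := j.2 != z j.1
  obtain ⟨M, m1, m2⟩ := mat (fun _ : ι => true) False
  by_contra! hc
  obtain ⟨Q, q1, q2⟩ := use M (A _ 6 F)
  have c1 := (hc _ inferInstance inferInstance F M m1).1
  obtain ⟨z, hz⟩ : ∃ z, B (x z) ∉ insert (Z ∪ (run M (A _ 6 F)).1) Q := by
    by_contra! h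
    have := card_le_card_of_injOn (s := univ) (fun z => B (x z)) (fun z _ => h z) fun z _ y _ e => by
      funext j
      have := Finset.ext_iff.1 e ((j, true), 0)
      simpa [B, x] using this
    have e : Fintype.card (ι × Fin 5) = 10 * s := by simp [ι]; omega
    have := card_insert_le (Z ∪ (run M (A _ 6 F)).1) Q
    rw [e] at c1
    simp at *; omega
  obtain ⟨N, n1, n2⟩ := mat (x z) True
  rw [mem_insert, not_or] at hz
  have e := q2 N fun A hA => by
    have := m2 A
    have := n2 A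
    have : A ≠ B (x z) := fun h => hz.2 (h ▸ hA)
    simp_all
  have := (hc _ inferInstance inferInstance F N n1).2 (B (x z) \ Z)
  rw [e] at this
  generalize (run M (A _ 6 F)).1 = H at *
  have u1 : ∀ K, X ∪ K ≠ B (x z) := fun K h => by
    simpa [X, B, x] using Finset.ext_iff.1 h ((⟨0, s0⟩, z ⟨0, s0⟩), 0)
  have u2 : ∀ K, Y ∪ K ≠ B (x z) := fun K h => by
    simpa [Y, B, x] using Finset.ext_iff.1 h ((⟨0, s0⟩, !z ⟨0, s0⟩), 2)
  have u3 : Z ∪ B (x z) \ Z = B (x z) := by ext; simp [Z, B]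
  have u4 : B (x z) \ Z ≠ B (x z) := fun h => by
    simpa [Z, B] using Finset.ext_iff.1 h ((⟨0, s0⟩, true), 4)
  have u5 : ∑ j, loc (B (x z) \ Z) j = 2 * Fintype.card ι := by
    rw [cn]
    refine sum_congr rfl fun j _ => ?_
    cases h : x z j <;> simp [loc, ind, B, Z, h]
  have u6 : ∑ j, loc (X ∪ B (x z) \ Z) j + ∑ j, loc (Y ∪ B (x z) \ Z) j = 5 * Fintype.card ι := by
    rw [cn, ← sum_add_distrib]
    refine sum_congr rfl fun j _ => ?_
    cases h : x z j <;> simp [loc, ind, B, X, Y, Z, h]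
  have a0 := ineq H
  have a1 := n2 H
  have a2 := n2 (X ∪ H)
  have a3 := n2 (Y ∪ H)
  have a4 := n2 (Z ∪ H)
  have a5 := n2 (B (x z) \ Z)
  have a6 := n2 (X ∪ B (x z) \ Z)
  have a7 := n2 (Y ∪ B (x z) \ Z)
  have a8 := n2 (B (x z))
  simp only [u1, u2, u4, Ne.symm hz.1, and_false, if_false, and_self, if_true] at a2 a3 a4 a5 a6 a7 a8
  simp only [Phi, Fin.sum_univ_six, F, Matrix.cons_val, empty_union, u3] at this
  omega

end Pool.Agent.Results.MP_8f56b8_lc.Oracle
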